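import Pool.Agent.Lib.MP_1ed8ce_co.Proof

open Pool.Agent.Lib.MP_1ed8ce_co SimpleGraph

/-- For `k = 2`, `b = 3` (so `r = 7`) and every `n ≥ 11` there is a `C_5`-free graph on `n`
vertices that meets the edge bound and attains the bound on `gamma2` without being a
`T**(7, n)`. -/
theorem Pool.Agent.Retired.MP_1ed8ce_co.EqualityCaseFails.result :
    ∃ k b : ℕ, k = 2 ∧ b = 3 ∧ ∀ n : ℕ, 11 ≤ n → ∃ G : SimpleGraph (Fin n),
      (cycleGraph (2 * k + 1)).Free G ∧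
      (n - (2 * k + b) + 2) ^ 2 / 4 + (2 * k).choose 2 + b.choose 2 ≤ G.edgeSet.ncard ∧
      gamma2 G = 2 * k.choose 2 + (b / 2).choose 2 + ((b + 1) / 2).choose 2 ∧
      ¬ IsTss k b n G := by
  refine ⟨2, 3, rfl, rfl, fun n hn => ?_⟩
  obtain ⟨G, h1, h2, h3, h4⟩ := main n hn
  refine ⟨G, h1, ?_, ?_, h4⟩
  · have e : n - (2 * 2 + 3) + 2 = n - 5 := by omega
    rw [e]
    simpa [Nat.choose, Nat.add_assoc] using h2
  · rw [h3]; decide
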